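import Pool.Agent.Helper54.SR.Defs

/-!
# SR-P4: a minimal normal subgroup inside a solvable normal subgroup
-/

set_option autoImplicit false

namespace Pool.Agent.Helper54.SR

private theorem h16_comm_lt {G : Type} [Group G] (R V : Subgroup G) [Group.IsSolvable R]
    (hVR : V ≤ R) (hV : V ≠ ⊥) : ⁅V, V⁆ < V := by
  have hinj := R.subtype_injective
  have hmap : (V.subgroupOf R).map R.subtype = V := Subgroup.map_subgroupOf_eq_of_le hVR
  have hne : V.subgroupOf R ≠ ⊥ := by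
    intro h
    rw [h, Subgroup.map_bot] at hmap
    exact hV hmap.symm
  have hlt := Group.IsSolvable.commutator_lt_of_ne_bot hne
  have h1 : (⁅V.subgroupOf R, V.subgroupOf R⁆).map R.subtype = ⁅V, V⁆ := by
    rw [Subgroup.map_commutator, hmap]
  rw [← h1]
  conv_rhs => rw [← hmap]
  exact (Subgroup.map_lt_map_iff_of_injective hinj).2 hlt

/-- SR-P4 -/
theorem exists_minimal_solvable {G : Type} [Group G] [Finite G] (R : Subgroup G) [R.Normal]
    [Group.IsSolvable R] (hR : R ≠ ⊥) :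
    ∃ (ℓ : ℕ) (V : Subgroup G), ℓ.Prime ∧ V.Normal ∧ V ≤ R ∧ V ≠ ⊥ ∧
      (∀ W : Subgroup G, W.Normal → W ≤ V → W = ⊥ ∨ W = V) ∧
      (∀ a b : V, a * b = b * a) ∧ ∀ a : V, a ^ ℓ = 1 := by
  classical
  obtain ⟨V, ⟨hVn, hVR, hV⟩, hmin⟩ := (Set.toFinite
    {V : Subgroup G | V.Normal ∧ V ≤ R ∧ V ≠ ⊥}).exists_minimal ⟨R, ‹R.Normal›, le_rfl, hR⟩
  have hmin' : ∀ W : Subgroup G, W.Normal → W ≤ V → W = ⊥ ∨ W = V := by
    intro W hW hWV
    by_cases h : W = ⊥
    · exact Or.inl h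
    · exact Or.inr (le_antisymm hWV (hmin ⟨hW, hWV.trans hVR, h⟩ hWV))
  have hcomm : ⁅V, V⁆ = ⊥ := by
    have hlt := h16_comm_lt R V hVR hV
    rcases hmin' ⁅V, V⁆ inferInstance hlt.le with h | h
    · exact h
    · exact absurd h hlt.ne
  have habel : ∀ a b : V, a * b = b * a := by
    intro a b
    have h := Subgroup.commutator_mem_commutator a.2 b.2
    rw [hcomm, Subgroup.mem_bot, commutatorElement_eq_one_iff_mul_comm] at h
    exact Subtype.ext h
  have hcard : Nat.card V ≠ 1 := fun h => hV (Subgroup.card_eq_one.1 h)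
  obtain ⟨ℓ, hℓ, hdvd⟩ := Nat.exists_prime_and_dvd hcard
  have habel' : ∀ a ∈ V, ∀ b ∈ V, a * b = b * a := fun a ha b hb =>
    congrArg Subtype.val (habel ⟨a, ha⟩ ⟨b, hb⟩)
  obtain ⟨W, hW⟩ : ∃ W : Subgroup G, ∀ a, a ∈ W ↔ a ∈ V ∧ a ^ ℓ = 1 := by
    refine ⟨{ carrier := {a | a ∈ V ∧ a ^ ℓ = 1}
              mul_mem' := ?_
              one_mem' := ⟨V.one_mem, one_pow _⟩
              inv_mem' := ?_ }, fun a => Iff.rfl⟩
    · rintro a b ⟨ha, ha'⟩ ⟨hb, hb'⟩
      refine ⟨V.mul_mem ha hb, ?_⟩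
      rw [(show Commute a b from habel' a ha b hb).mul_pow, ha', hb', one_mul]
    · rintro a ⟨ha, ha'⟩
      refine ⟨V.inv_mem ha, ?_⟩
      rw [inv_pow, ha', inv_one]
  have hWn : W.Normal := by
    refine ⟨fun a ha g => ?_⟩
    rw [hW] at ha ⊢
    refine ⟨hVn.conj_mem a ha.1 g, ?_⟩
    rw [conj_pow, ha.2, mul_one, mul_inv_cancel]
  have hWne : W ≠ ⊥ := by
    have : Fact ℓ.Prime := ⟨hℓ⟩
    obtain ⟨x, hx⟩ := exists_prime_orderOf_dvd_card' (G := V) ℓ hdvd
    intro h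
    have h1 : (x : G) ∈ W := by
      rw [hW]
      refine ⟨x.2, ?_⟩
      have := pow_orderOf_eq_one x
      rw [hx] at this
      exact congrArg Subtype.val this
    rw [h, Subgroup.mem_bot] at h1
    have h2 : x = 1 := Subtype.ext h1
    rw [h2, orderOf_one] at hx
    exact hℓ.one_lt.ne hx
  have hWV : W = V := by
    rcases hmin' W hWn fun a ha => ((hW a).1 ha).1 with h | h
    · exact absurd h hWne
    · exact h
  refine ⟨ℓ, V, hℓ, hVn, hVR, hV, hmin', habel, fun a => ?_⟩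
  have h1 : (a : G) ∈ W := by
    rw [hWV]
    exact a.2
  exact Subtype.ext ((hW _).1 h1).2

end Pool.Agent.Helper54.SR
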